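import Pool.Agent.W860.OB.Main
import Pool.Agent.W860.PC.Final
set_option autoImplicit false

/-! Covering by polynomially many translates of a coset progression (box). -/

namespace W860.OB

open Finset H112
open scoped Pointwise

theorem body_box {m : ℕ} {B : Set (Fin m → ℝ)} (hB : SymmBody B) :
    ∃ (k : ℕ) (w : Fin k → (Fin m → ℤ)) (L : Fin k → ℕ), k ≤ m ∧
      (∀ z : Fin m → ℤ, (fun i => (z i : ℝ)) ∈ B →
        ∃ a : Fin k → ℤ, (∀ i, |a i| ≤ L i) ∧ z = ∑ i, a i • w i) ∧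
      ∏ i, (2 * L i + 1) ≤ (36 * k ^ 6) ^ k * {c : Fin m → ℤ | (fun i => (c i : ℝ)) ∈ B}.ncard := by
  classical
  obtain ⟨hconv, hcomp, ⟨x0, hx0⟩, hsymm⟩ := hB
  have h0 : (0 : Fin m → ℝ) ∈ interior B := by
    have h1 : -x0 ∈ B := hsymm _ (interior_subset hx0)
    have h2 := hconv.openSegment_interior_self_subset_interior hx0 h1
    apply h2
    exact ⟨1 / 2, 1 / 2, by norm_num, by norm_num, by norm_num, by
      rw [← smul_add, add_neg_cancel, smul_zero]⟩
  have hnhds : B ∈ nhds (0 : Fin m → ℝ) := mem_interior_iff_mem_nhds.1 h0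
  have hbal : Balanced ℝ B := (balanced_iff_neg_mem hconv).2 fun x hx => hsymm x hx
  let N : Seminorm ℝ (Fin m → ℝ) := gaugeSeminorm hbal hconv (absorbent_nhds_zero hnhds)
  have hN : ∀ x, N x ≤ 1 ↔ x ∈ B := by
    intro x
    have h1 : N x = gauge B x := rfl
    rw [h1, gauge_le_one_iff_mem_closure hconv hnhds, hcomp.isClosed.closure_eq]
  have hset : LL N 1 = {c : Fin m → ℤ | (fun i => (c i : ℝ)) ∈ B} := by
    ext c
    exact hN _
  have hfin : (LL N 1).Finite := by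
    rw [hset]
    obtain ⟨R, hR⟩ := hcomp.isBounded.subset_closedBall (0 : Fin m → ℝ)
    apply (Set.finite_Icc (fun _ => -⌈|R|⌉ : Fin m → ℤ) (fun _ => ⌈|R|⌉)).subset
    intro c hc
    have h1 := hR hc
    rw [mem_closedBall_zero_iff] at h1
    have h2 : ∀ i, |(c i : ℝ)| ≤ |R| := fun i =>
      (norm_le_pi_norm (fun i => (c i : ℝ)) i).trans (h1.trans (le_abs_self R))
    rw [Set.mem_Icc]
    constructor
    · intro i
      have h3 := (abs_le.1 (h2 i)).1
      have h4 : (-⌈|R|⌉ : ℤ) ≤ c i := by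
        have h5 : -(⌈|R|⌉ : ℝ) ≤ c i := by
          have := Int.le_ceil |R|
          linarith
        exact_mod_cast h5
      exact h4
    · intro i
      have h3 := (abs_le.1 (h2 i)).2
      have h4 : c i ≤ ⌈|R|⌉ := by
        have h5 : (c i : ℝ) ≤ (⌈|R|⌉ : ℝ) := h3.trans (Int.le_ceil |R|)
        exact_mod_cast h5
      exact h4
  obtain ⟨k, w, L, hk, hw, hL⟩ := outer_box N zero_le_one hfin
  refine ⟨k, w, L, hk, ?_, ?_⟩
  · intro z hz
    exact hw z ((hN _).2 hz)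
  · rw [← hset]; exact hL

theorem num_box {κ ε₀ : ℝ} {k : ℕ} (hκ69 : 0.69 < κ) (hε0 : 0 < ε₀) (hε1 : ε₀ ≤ 1)
    (hk : (k : ℝ) ≤ 30000 / ε₀ * κ) :
    (36 * (k : ℝ) ^ 6) ^ k ≤ Real.exp (3500000 / ε₀ ^ 2 * κ ^ (1 + ε₀)) := by
  have hκ0 : 0 < κ := by linarith
  rcases Nat.eq_zero_or_pos k with h0 | hpos
  · subst h0
    rw [pow_zero]
    exact Real.one_le_exp (by positivity)
  have hk0 : (0 : ℝ) < k := by exact_mod_cast hpos
  have h25 : (0.69 : ℝ) ≤ κ ^ ε₀ := by
    by_cases hk1 : 1 ≤ κ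
    · have := Real.one_le_rpow hk1 hε0.le
      linarith
    · push Not at hk1
      calc (0.69 : ℝ) ≤ κ := hκ69.le
        _ = κ ^ (1 : ℝ) := (Real.rpow_one κ).symm
        _ ≤ κ ^ ε₀ := Real.rpow_le_rpow_of_exponent_ge hκ0 hk1.le hε1
  obtain ⟨u, hu⟩ : ∃ u : ℝ, u = κ ^ ε₀ := ⟨_, rfl⟩
  obtain ⟨e, he⟩ : ∃ e : ℝ, e = 1 / ε₀ := ⟨_, rfl⟩
  have he1 : 1 ≤ e := by rw [he, le_div_iff₀ hε0]; linarith
  have hu69 : 0.69 ≤ u := by rw [hu]; exact h25
  have hlogκ : Real.log κ ≤ e * u := by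
    have := Real.log_le_rpow_div hκ0.le hε0
    rw [he, hu]
    calc Real.log κ ≤ κ ^ ε₀ / ε₀ := this
      _ = _ := by ring
  have hloge : Real.log e ≤ e := by
    have := Real.log_le_sub_one_of_pos (by linarith : 0 < e)
    linarith
  have hlog3 : Real.log 30000 ≤ 10.4 := by
    have h1 : Real.log 30000 ≤ Real.log (2 ^ 15) :=
      Real.log_le_log (by norm_num) (by norm_num)
    rw [Real.log_pow] at h1
    have := Real.log_two_lt_d9
    push_cast at h1
    linarith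
  have hlog36 : Real.log 36 ≤ 4.2 := by
    have h1 : Real.log 36 ≤ Real.log (2 ^ 6) :=
      Real.log_le_log (by norm_num) (by norm_num)
    rw [Real.log_pow] at h1
    have := Real.log_two_lt_d9
    push_cast at h1
    linarith
  have hlogk : Real.log k ≤ 10.4 + e * u + e := by
    have h1 : (k : ℝ) ≤ 30000 * (κ * e) := by
      rw [he]
      calc (k : ℝ) ≤ 30000 / ε₀ * κ := hk
        _ = _ := by ring
    have h2 : Real.log k ≤ Real.log (30000 * (κ * e)) := Real.log_le_log hk0 h1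
    rw [Real.log_mul (by norm_num) (by positivity), Real.log_mul hκ0.ne' (by positivity)] at h2
    linarith
  have hlog : Real.log (36 * (k : ℝ) ^ 6) ≤ 116 * (e * u) := by
    rw [Real.log_mul (by norm_num) (by positivity), Real.log_pow]
    push_cast
    have h3 : u ≤ e * u := le_mul_of_one_le_left (by linarith) he1
    have h4 : e ≤ e * u / 0.69 := by
      rw [le_div_iff₀ (by norm_num)]
      exact mul_le_mul_of_nonneg_left hu69 (by linarith)
    have h5 : e * u / 0.69 ≤ 1.45 * (e * u) := by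
      rw [div_le_iff₀ (by norm_num)]
      have : 0 ≤ e * u := by nlinarith
      nlinarith
    have h6 : 1 ≤ 1.45 * (e * u) := by linarith
    linarith
  have hpos2 : 0 < 36 * (k : ℝ) ^ 6 := by positivity
  calc (36 * (k : ℝ) ^ 6) ^ k = Real.exp (k * Real.log (36 * (k : ℝ) ^ 6)) := by
        rw [Real.exp_nat_mul, Real.exp_log hpos2]
    _ ≤ Real.exp (3500000 / ε₀ ^ 2 * κ ^ (1 + ε₀)) := by
        apply Real.exp_le_exp.2
        have h7 : 0 ≤ 116 * (e * u) := by nlinarith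
        calc (k : ℝ) * Real.log (36 * (k : ℝ) ^ 6) ≤ k * (116 * (e * u)) :=
              mul_le_mul_of_nonneg_left hlog hk0.le
          _ ≤ (30000 / ε₀ * κ) * (116 * (e * u)) := mul_le_mul_of_nonneg_right hk h7
          _ = 3480000 * (1 / ε₀ ^ 2 * (κ * u)) := by rw [he]; ring
          _ ≤ 3500000 * (1 / ε₀ ^ 2 * (κ * u)) := by
              apply mul_le_mul_of_nonneg_right (by norm_num)
              have : 0 < u := by linarith
              positivity
          _ = _ := by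
              rw [hu, Real.rpow_add hκ0, Real.rpow_one]
              ring

/-- **Covering by polynomially many translates of a coset progression.** -/
theorem gap_cover {G : Type*} [AddCommGroup G] [DecidableEq G] {K ε₀ : ℝ}
    {A : Finset G} (hA : A.Nonempty) (hK : ((A + A).card : ℝ) ≤ K * A.card)
    (hε0 : 0 < ε₀) (hε1 : ε₀ ≤ 1) :
    ∃ (k : ℕ) (v : Fin k → G) (L : Fin k → ℕ) (H₀ : AddSubgroup G) (T : Finset G),
      (k : ℝ) ≤ 30000 / ε₀ * Real.log (2 * K) ∧ Finite H₀ ∧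
      ((∏ i, (2 * L i + 1) : ℕ) : ℝ) * (Nat.card H₀ : ℝ) ≤
        Real.exp (4000000 / ε₀ ^ 2 * Real.log (2 * K) ^ (1 + ε₀)) * A.card ∧
      (T.card : ℝ) ≤ (2 * K) ^ (30000 / ε₀) ∧
      ∀ a ∈ A, ∃ t ∈ T, ∃ c : Fin k → ℤ, (∀ i, |c i| ≤ L i) ∧
        ∃ h ∈ H₀, a = t + ∑ i, c i • v i + h := by
  classical
  have hApos : (0 : ℝ) < A.card := by exact_mod_cast hA.card_pos
  have hK1 : 1 ≤ K := by
    have h1 : (A.card : ℝ) ≤ (A + A).card := by
      exact_mod_cast Finset.card_le_card_add_right hA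
    nlinarith
  have hκ69 : (0.69 : ℝ) < Real.log (2 * K) := by
    have h1 : Real.log 2 ≤ Real.log (2 * K) := Real.log_le_log (by norm_num) (by linarith)
    have := Real.log_two_gt_d9
    linarith
  obtain ⟨d, B, ψ, H₀, T, hd, hB, hH, hvol, hT, hcov⟩ := W860.PC.poly_cover hA hK hε0 hε1
  obtain ⟨k, w, L, hkd, hw, hL⟩ := body_box hB
  have hk : (k : ℝ) ≤ 30000 / ε₀ * Real.log (2 * K) := le_trans (by exact_mod_cast hkd) hd
  refine ⟨k, fun i => ψ (w i), L, H₀, T, hk, hH, ?_, hT, ?_⟩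
  · have h1 := num_box hκ69 hε0 hε1 hk
    have h2 : ((∏ i, (2 * L i + 1) : ℕ) : ℝ) ≤ (36 * (k : ℝ) ^ 6) ^ k *
        ({c : Fin d → ℤ | (fun i => (c i : ℝ)) ∈ B}.ncard : ℝ) := by
      exact_mod_cast hL
    have h3 : (0 : ℝ) ≤ Nat.card H₀ := Nat.cast_nonneg _
    have hκ0 : 0 < Real.log (2 * K) := by linarith
    calc ((∏ i, (2 * L i + 1) : ℕ) : ℝ) * (Nat.card H₀ : ℝ)
        ≤ ((36 * (k : ℝ) ^ 6) ^ k *
          ({c : Fin d → ℤ | (fun i => (c i : ℝ)) ∈ B}.ncard : ℝ)) * Nat.card H₀ :=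
          mul_le_mul_of_nonneg_right h2 h3
      _ = (36 * (k : ℝ) ^ 6) ^ k *
          (({c : Fin d → ℤ | (fun i => (c i : ℝ)) ∈ B}.ncard * Nat.card H₀ : ℕ) : ℝ) := by
          push_cast; ring
      _ ≤ Real.exp (3500000 / ε₀ ^ 2 * Real.log (2 * K) ^ (1 + ε₀)) *
          (Real.exp (30000 / ε₀ * Real.log (2 * K) ^ (1 + ε₀)) * A.card) :=
          mul_le_mul h1 hvol (Nat.cast_nonneg _) (Real.exp_pos _).le
      _ = Real.exp (3500000 / ε₀ ^ 2 * Real.log (2 * K) ^ (1 + ε₀) +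
            30000 / ε₀ * Real.log (2 * K) ^ (1 + ε₀)) * A.card := by
          rw [Real.exp_add]; ring
      _ ≤ _ := by
          apply mul_le_mul_of_nonneg_right _ hApos.le
          apply Real.exp_le_exp.2
          have h4 : 30000 / ε₀ ≤ 30000 / ε₀ ^ 2 := by
            apply div_le_div_of_nonneg_left (by norm_num) (by positivity)
            nlinarith
          have h5 : 0 ≤ Real.log (2 * K) ^ (1 + ε₀) := by positivity
          have h6 : 3500000 / ε₀ ^ 2 + 30000 / ε₀ ≤ 4000000 / ε₀ ^ 2 := by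
            have h7 : 3500000 / ε₀ ^ 2 + 30000 / ε₀ ^ 2 ≤ 4000000 / ε₀ ^ 2 := by
              rw [← add_div]
              apply div_le_div_of_nonneg_right (by norm_num) (by positivity)
            linarith
          calc _ = (3500000 / ε₀ ^ 2 + 30000 / ε₀) * Real.log (2 * K) ^ (1 + ε₀) := by ring
            _ ≤ _ := mul_le_mul_of_nonneg_right h6 h5
  · intro a ha
    obtain ⟨t, ht, c, hc, h, hh, e⟩ := hcov a ha
    obtain ⟨b, hb, he⟩ := hw c hc
    refine ⟨t, ht, b, hb, h, hh, ?_⟩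
    rw [e, he, map_sum]
    congr 2
    apply Finset.sum_congr rfl
    intro i _
    rw [map_zsmul]

end W860.OB

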