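import Pool.Agent.W860.OB.Pig
set_option autoImplicit false

/-! Outer boxes for the lattice points of a norm ball: the full dimensional case. -/

namespace W860.OB

open Finset H112

theorem real_indep_of_int {k m : ℕ} {v : Fin k → (Fin m → ℤ)} (hv : LinearIndependent ℤ v) :
    LinearIndependent ℝ (fun i => rv (v i)) := by
  have h := (linearIndependent_algebraMap_comp_iff (R := ℤ) (S := ℝ) (v := v)).2 hv
  exact h

theorem int_indep_of_real {k m : ℕ} {v : Fin k → (Fin m → ℤ)}
    (hv : LinearIndependent ℝ (fun i => rv (v i))) : LinearIndependent ℤ v :=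
  (linearIndependent_algebraMap_comp_iff (R := ℤ) (S := ℝ) (v := v)).1 hv

theorem det_ne_zero_of_indep {k : ℕ} {v : Fin k → (Fin k → ℤ)} (hv : LinearIndependent ℤ v) :
    (Matrix.of v).det ≠ 0 := by
  intro h
  have h1 : LinearIndependent ℝ (Matrix.of (fun i j => (v i j : ℝ))).row := real_indep_of_int hv
  rw [Matrix.linearIndependent_rows_iff_isUnit] at h1
  have h2 := (Matrix.isUnit_iff_isUnit_det _).1 h1
  have h3 : (Matrix.of (fun i j => (v i j : ℝ))).det = (((Matrix.of v).det : ℤ) : ℝ) := by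
    have := RingHom.map_det (Int.castRingHom ℝ) (Matrix.of v)
    rw [eq_intCast] at this
    rw [this]
    congr 1
  rw [h3, h] at h2
  simp at h2

theorem indep_of_det_ne_zero {k : ℕ} {v : Fin k → (Fin k → ℤ)} (hv : (Matrix.of v).det ≠ 0) :
    LinearIndependent ℤ v := by
  apply int_indep_of_real
  have h1 : IsUnit (Matrix.of (fun i j => (v i j : ℝ))) := by
    rw [Matrix.isUnit_iff_isUnit_det]
    have h3 : (Matrix.of (fun i j => (v i j : ℝ))).det = (((Matrix.of v).det : ℤ) : ℝ) := by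
      have := RingHom.map_det (Int.castRingHom ℝ) (Matrix.of v)
      rw [eq_intCast] at this
      rw [this]
      congr 1
    rw [h3, isUnit_iff_ne_zero]
    exact_mod_cast hv
  exact Matrix.linearIndependent_rows_iff_isUnit.2 h1

/-- short independent functionals -/
theorem short_dual {k : ℕ} (hk : 0 < k) (x : Fin k → (Fin k → ℤ))
    (hli : LinearIndependent ℤ x) :
    ∃ (g : Fin k → (Fin k → ℤ)) (M : Fin k → ℝ), LinearIndependent ℤ g ∧ (∀ i, 1 ≤ M i) ∧
      Monotone M ∧ (∀ i j, |∑ l, (g i l : ℝ) * (x j l : ℝ)| ≤ M i) ∧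
      ∏ i, M i ≤ (12 * (k : ℝ) ^ 3) ^ k * ((Matrix.of x).det.natAbs : ℝ) := by
  classical
  set D : ℕ := (Matrix.of x).det.natAbs with hD
  have hdet := det_ne_zero_of_indep hli
  have hD0 : 0 < D := Int.natAbs_pos.2 hdet
  -- the transposed family
  let y : Fin k → (Fin k → ℤ) := fun l i => x i l
  have hyt : (Matrix.of y).det = (Matrix.of x).det := by
    rw [← Matrix.det_transpose]
    congr 1
  have hyli : LinearIndependent ℤ y := indep_of_det_ne_zero (by rw [hyt]; exact hdet)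
  have hyq : Nat.card ((Fin k → ℤ) ⧸ Submodule.span ℤ (Set.range y)) = D := by
    rw [card_quot y hyli, hyt]
  have hyfin : Finite ((Fin k → ℤ) ⧸ Submodule.span ℤ (Set.range y)) :=
    Nat.finite_of_card_ne_zero (by rw [hyq]; exact hD0.ne')
  -- the dual norm
  let Φ : (Fin k → ℝ) →ₗ[ℝ] (Fin k → ℝ) :=
    (Matrix.of (fun i l => (x i l : ℝ)) : Matrix (Fin k) (Fin k) ℝ).mulVecLin
  have hΦ : ∀ (g : Fin k → ℝ) i, Φ g i = ∑ l, (x i l : ℝ) * g l := by
    intro g i
    simp [Φ, Matrix.mulVec, dotProduct]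
  let Nd : Seminorm ℝ (Fin k → ℝ) := (normSeminorm ℝ (Fin k → ℝ)).comp Φ
  have hNd : ∀ (g : Fin k → ℝ) {s : ℝ}, 0 ≤ s → (Nd g ≤ s ↔ ∀ i, |∑ l, (x i l : ℝ) * g l| ≤ s) := by
    intro g s hs
    have h1 : Nd g = ‖Φ g‖ := rfl
    rw [h1, pi_norm_le_iff_of_nonneg hs]
    simp only [hΦ, Real.norm_eq_abs]
  have hcoord : ∀ (g : Fin k → ℤ) i, ((∑ l, g l • y l) i : ℤ) = ∑ l, x i l * g l := by
    intro g i
    rw [Finset.sum_apply]
    apply Finset.sum_congr rfl
    intro l _
    simp [y, mul_comm]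
  have hLLmem : ∀ (g : Fin k → ℤ) (s : ℕ), g ∈ LL Nd s ↔ ∀ i, |(∑ l, g l • y l) i| ≤ s := by
    intro g s
    change Nd (fun i => (g i : ℝ)) ≤ s ↔ _
    rw [hNd _ (Nat.cast_nonneg s)]
    apply forall_congr'
    intro i
    rw [hcoord]
    have h1 : (∑ l, (x i l : ℝ) * (g l : ℝ)) = ((∑ l, x i l * g l : ℤ) : ℝ) := by push_cast; rfl
    rw [h1]
    constructor
    · intro h; exact_mod_cast h
    · intro h; exact_mod_cast h
  have hinjy : Function.Injective (fun g : Fin k → ℤ => ∑ l, g l • y l) :=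
    hyli.fintypeLinearCombination_injective
  have hfinLL : ∀ s : ℕ, (LL Nd (s : ℝ)).Finite := by
    intro s
    apply Set.Finite.of_finite_image (f := fun g : Fin k → ℤ => ∑ l, g l • y l) _ hinjy.injOn
    apply (Set.finite_Icc (fun _ => -(s : ℤ) : Fin k → ℤ) (fun _ => (s : ℤ))).subset
    rintro _ ⟨g, hg, rfl⟩
    rw [hLLmem] at hg
    rw [Set.mem_Icc]
    exact ⟨fun i => (abs_le.1 (hg i)).1, fun i => (abs_le.1 (hg i)).2⟩
  -- choice of the radius
  set C : ℕ := (4 * k ^ 3) ^ k with hC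
  have hC1 : 1 ≤ C := Nat.one_le_pow _ _ (by positivity)
  set R : ℕ := C * 3 ^ k * D + 1 with hR
  have hR1 : 1 ≤ R := by omega
  obtain ⟨k', v, L, hk', hv, hbox, hcard⟩ := discrete_john Nd (r := (R : ℝ)) (Nat.cast_nonneg R)
    (hfinLL R)
  have hCk' : (4 * k' ^ 3) ^ k' ≤ C := by
    rcases Nat.eq_zero_or_pos k' with h | h
    · subst h; simpa using hC1
    · rw [hC]
      calc (4 * k' ^ 3) ^ k' ≤ (4 * k ^ 3) ^ k' :=
            Nat.pow_le_pow_left (Nat.mul_le_mul_left _ (Nat.pow_le_pow_left hk' 3)) _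
        _ ≤ (4 * k ^ 3) ^ k := Nat.pow_le_pow_right (by positivity) hk'
  have hcount : R ^ k ≤ (C * ∏ i, (2 * L i + 1)) * D := by
    have h1 := pig_b y (LL Nd (R : ℝ)) (hfinLL R) R hyfin (fun g hg => (hLLmem g R).2 hg)
    rw [hyq] at h1
    refine h1.trans (Nat.mul_le_mul_right _ (hcard.trans (Nat.mul_le_mul_right _ hCk')))
  -- norms of the vectors
  have hrv : ∀ z : Fin k → ℤ, Nd (rv z) = Nd (fun i => (z i : ℝ)) := fun _ => rfl
  have hN1 : ∀ i, 1 ≤ Nd (rv (v i)) := by
    intro i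
    have hne : v i ≠ 0 := hv.ne_zero i
    have h1 : ∑ l, v i l • y l ≠ 0 := by
      intro h
      apply hne
      apply hinjy
      simp only [h]
      simp
    obtain ⟨j, hj⟩ := Function.ne_iff.1 h1
    have h2 : (1 : ℤ) ≤ |(∑ l, v i l • y l) j| := Int.one_le_abs hj
    by_contra hlt
    push Not at hlt
    have h3 := (hNd (rv (v i)) (apply_nonneg Nd _)).1 le_rfl j
    have h4 : (∑ l, (x j l : ℝ) * rv (v i) l) = (((∑ l, v i l • y l) j : ℤ) : ℝ) := by
      rw [hcoord]; push_cast; rfl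
    rw [h4] at h3
    have h5 : (1 : ℝ) ≤ |(((∑ l, v i l • y l) j : ℤ) : ℝ)| := by exact_mod_cast h2
    linarith
  have hLR : ∀ i, (L i : ℝ) * Nd (rv (v i)) ≤ R := by
    intro i
    have h1 := hbox (Pi.single i (L i : ℤ)) (by
      intro j
      by_cases hij : j = i
      · subst hij; simp
      · rw [Pi.single_eq_of_ne hij]; simp)
    have h2 : ∑ j, (Pi.single i (L i : ℤ) : Fin k' → ℤ) j • v j = (L i : ℤ) • v i := by
      rw [Finset.sum_eq_single i]
      · simp
      · intro j _ hj; rw [Pi.single_eq_of_ne hj, zero_smul]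
      · intro h; exact absurd (Finset.mem_univ _) h
    rw [h2] at h1
    have h3 : Nd (rv ((L i : ℤ) • v i)) ≤ R := h1
    rw [rv_zsmul, map_smul_eq_mul] at h3
    have h4 : ‖(((L i : ℕ) : ℤ) : ℝ)‖ = (L i : ℝ) := by simp
    rw [h4] at h3
    exact h3
  have hLR' : ∀ i, L i ≤ R := by
    intro i
    have h1 := hLR i
    have h2 := hN1 i
    have h3 : (L i : ℝ) ≤ R := by
      have h4 : (0 : ℝ) ≤ L i := Nat.cast_nonneg _
      nlinarith
    exact_mod_cast h3
  -- all directions are long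
  set S : Finset (Fin k') := Finset.univ.filter fun i => 1 ≤ L i with hS
  have hprodS : ∏ i, (2 * L i + 1) ≤ (3 * R) ^ S.card := by
    calc ∏ i, (2 * L i + 1) = ∏ i ∈ S, (2 * L i + 1) := by
          symm
          apply Finset.prod_subset (Finset.filter_subset _ _)
          intro i _ hi
          have : ¬ 1 ≤ L i := fun h => hi (Finset.mem_filter.2 ⟨Finset.mem_univ _, h⟩)
          omega
      _ ≤ ∏ _i ∈ S, (3 * R) := by
          apply Finset.prod_le_prod'
          intro i hi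
          have h1 : 1 ≤ L i := (Finset.mem_filter.1 hi).2
          have h2 := hLR' i
          omega
      _ = _ := by rw [Finset.prod_const]
  have hScard : k ≤ S.card := by
    by_contra hlt
    push Not at hlt
    have h1 : ∏ i, (2 * L i + 1) ≤ (3 * R) ^ (k - 1) :=
      hprodS.trans (Nat.pow_le_pow_right (by omega) (by omega))
    have h2 : R ^ k ≤ (C * (3 * R) ^ (k - 1)) * D :=
      hcount.trans (Nat.mul_le_mul_right _ (Nat.mul_le_mul_left _ h1))
    obtain ⟨n, rfl⟩ : ∃ n, k = n + 1 := ⟨k - 1, by omega⟩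
    rw [Nat.add_sub_cancel, mul_pow, pow_succ] at h2
    have h3 : R ^ n * R ≤ R ^ n * (C * 3 ^ n * D) := by
      refine h2.trans (le_of_eq ?_)
      ring
    have h4 : R ≤ C * 3 ^ n * D := Nat.le_of_mul_le_mul_left h3 (by positivity)
    have h5 : C * 3 ^ n * D ≤ C * 3 ^ (n + 1) * D :=
      Nat.mul_le_mul_right _ (Nat.mul_le_mul_left _ (Nat.pow_le_pow_right (by norm_num) (by omega)))
    omega
  have hSle : S.card ≤ k' := by
    have := Finset.card_le_univ S
    simpa using this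
  have hkk : k' = k := by omega
  subst hkk
  have hSuniv : ∀ i, 1 ≤ L i := by
    have h1 : S = Finset.univ := by
      apply Finset.eq_univ_of_card
      rw [Fintype.card_fin]; omega
    intro i
    have : i ∈ S := by rw [h1]; exact Finset.mem_univ _
    exact (Finset.mem_filter.1 this).2
  -- the product
  have hprod : ∏ i, Nd (rv (v i)) ≤ (12 * (k' : ℝ) ^ 3) ^ k' * (D : ℝ) := by
    have hRr : (0 : ℝ) < R := by exact_mod_cast hR1
    have h1 : (∏ i, ((2 * L i + 1 : ℕ) : ℝ)) * ∏ i, Nd (rv (v i)) ≤ (3 * (R : ℝ)) ^ k' := by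
      rw [← Finset.prod_mul_distrib]
      calc ∏ i, (((2 * L i + 1 : ℕ) : ℝ) * Nd (rv (v i))) ≤ ∏ _i : Fin k', (3 * (R : ℝ)) := by
            apply Finset.prod_le_prod
            · intro i _; positivity
            · intro i _
              have h2 : ((2 * L i + 1 : ℕ) : ℝ) ≤ 3 * (L i : ℝ) := by
                have h3 : (1 : ℝ) ≤ L i := by exact_mod_cast hSuniv i
                push_cast; linarith
              calc ((2 * L i + 1 : ℕ) : ℝ) * Nd (rv (v i)) ≤ 3 * (L i : ℝ) * Nd (rv (v i)) :=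
                    mul_le_mul_of_nonneg_right h2 (apply_nonneg _ _)
                _ = 3 * ((L i : ℝ) * Nd (rv (v i))) := by ring
                _ ≤ 3 * R := by linarith [hLR i]
        _ = _ := by rw [Finset.prod_const, Finset.card_univ, Fintype.card_fin]
    have h2 : (R : ℝ) ^ k' ≤ (C * ∏ i, ((2 * L i + 1 : ℕ) : ℝ)) * D := by
      exact_mod_cast hcount
    have h0 : 0 ≤ ∏ i, Nd (rv (v i)) := Finset.prod_nonneg fun i _ => apply_nonneg _ _
    have h3 : (R : ℝ) ^ k' * ∏ i, Nd (rv (v i)) ≤ (R : ℝ) ^ k' * ((12 * (k' : ℝ) ^ 3) ^ k' * D) := by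
      calc (R : ℝ) ^ k' * ∏ i, Nd (rv (v i)) ≤
            ((C * ∏ i, ((2 * L i + 1 : ℕ) : ℝ)) * D) * ∏ i, Nd (rv (v i)) :=
            mul_le_mul_of_nonneg_right h2 h0
        _ = (C * D : ℝ) * ((∏ i, ((2 * L i + 1 : ℕ) : ℝ)) * ∏ i, Nd (rv (v i))) := by ring
        _ ≤ (C * D : ℝ) * (3 * (R : ℝ)) ^ k' := mul_le_mul_of_nonneg_left h1 (by positivity)
        _ = _ := by
            rw [hC]; push_cast
            rw [mul_pow, mul_pow, mul_pow]
            have : (12 : ℝ) ^ k' = 4 ^ k' * 3 ^ k' := by rw [← mul_pow]; norm_num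
            rw [this]
            ring
    exact le_of_mul_le_mul_left h3 (by positivity)
  -- sort
  let σ : Equiv.Perm (Fin k') := Tuple.sort fun i => Nd (rv (v i))
  refine ⟨fun i => v (σ i), fun i => Nd (rv (v (σ i))), hv.comp _ σ.injective,
    fun i => hN1 _, Tuple.monotone_sort fun i => Nd (rv (v i)), ?_, ?_⟩
  · intro i j
    have h1 := (hNd (rv (v (σ i))) (apply_nonneg Nd _)).1 le_rfl j
    refine le_trans (le_of_eq ?_) h1
    congr 1
    apply Finset.sum_congr rfl
    intro l _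
    rw [mul_comm]; rfl
  · rw [Equiv.prod_comp σ (fun i => Nd (rv (v i)))]
    exact hprod

end W860.OB
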