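import Pool.Agent.W860.OB.Full
set_option autoImplicit false

/-! Outer boxes for the lattice points of a symmetric convex body. -/

namespace W860.OB

open Finset H112

/-- full dimensional case -/
theorem box_full {k : ℕ} (N : Seminorm ℝ (Fin k → ℝ)) {r : ℝ} (hr : 0 ≤ r)
    (hfin : (LL N r).Finite) (x : Fin k → (Fin k → ℤ)) (hx : ∀ i, x i ∈ LL N r)
    (hli : LinearIndependent ℝ (fun i => rv (x i)))
    (hc : ∀ z ∈ LL N r, ∃ a : Fin k → ℝ, (∀ i, |a i| ≤ 1) ∧ rv z = ∑ i, a i • rv (x i)) :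
    ∃ (w : Fin k → (Fin k → ℤ)) (L : Fin k → ℕ),
      (∀ z ∈ LL N r, ∃ a : Fin k → ℤ, (∀ i, |a i| ≤ L i) ∧ z = ∑ i, a i • w i) ∧
      ∏ i, (2 * L i + 1) ≤ (36 * k ^ 6) ^ k * (LL N r).ncard := by
  classical
  rcases Nat.eq_zero_or_pos k with hk | hk
  · subst hk
    refine ⟨Fin.elim0, Fin.elim0, ?_, ?_⟩
    · intro z _
      exact ⟨Fin.elim0, fun i => i.elim0, by funext i; exact i.elim0⟩
    · have h0 : (0 : Fin 0 → ℤ) ∈ LL N r := by
        show N _ ≤ r
        have : (fun i => (((0 : Fin 0 → ℤ) i : ℤ) : ℝ)) = 0 := by funext i; exact i.elim0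
        rw [this, map_zero]; exact hr
      have h1 : 0 < (LL N r).ncard := (Set.ncard_pos hfin).2 ⟨0, h0⟩
      simp
      omega
  have hliZ := int_indep_of_real hli
  set D : ℕ := (Matrix.of x).det.natAbs with hD
  have hD0 : 0 < D := Int.natAbs_pos.2 (det_ne_zero_of_indep hliZ)
  have hxq : Nat.card ((Fin k → ℤ) ⧸ Submodule.span ℤ (Set.range x)) = D := card_quot x hliZ
  have hxfin : Finite ((Fin k → ℤ) ⧸ Submodule.span ℤ (Set.range x)) :=
    Nat.finite_of_card_ne_zero (by rw [hxq]; exact hD0.ne')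
  have hDle : D ≤ k ^ k * (LL N r).ncard := by
    rw [← hxq]; exact pig_a N hr hfin x hx hli hxfin
  obtain ⟨g, M, hg, hM1, hMmono, hgx, hprod⟩ := short_dual hk x hliZ
  obtain ⟨f, hspan, hf⟩ := tri_basis g (real_indep_of_int hg)
  have hk1 : (1 : ℝ) ≤ k := by exact_mod_cast hk
  -- the functionals `f`
  have hfx : ∀ i j, |∑ l, (f i l : ℝ) * (x j l : ℝ)| ≤ k * M i := by
    intro i j
    obtain ⟨t, ht1, ht0, hft⟩ := hf i
    have h1 : ∀ l, (f i l : ℝ) = ∑ n, t n * (g n l : ℝ) := by
      intro l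
      have := congrFun hft l
      simpa [rv, Finset.sum_apply] using this
    have h2 : ∑ l, (f i l : ℝ) * (x j l : ℝ) = ∑ n, t n * ∑ l, (g n l : ℝ) * (x j l : ℝ) := by
      simp only [h1, Finset.sum_mul, Finset.mul_sum]
      rw [Finset.sum_comm]
      apply Finset.sum_congr rfl; intro n _
      apply Finset.sum_congr rfl; intro l _
      ring
    rw [h2]
    refine (Finset.abs_sum_le_sum_abs _ _).trans ?_
    calc ∑ n, |t n * ∑ l, (g n l : ℝ) * (x j l : ℝ)| ≤ ∑ _n : Fin k, M i := by
          apply Finset.sum_le_sum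
          intro n _
          rw [abs_mul]
          rcases lt_or_ge i n with hin | hin
          · rw [ht0 n hin, abs_zero, zero_mul]
            linarith [hM1 i]
          · calc |t n| * |∑ l, (g n l : ℝ) * (x j l : ℝ)| ≤ 1 * M n :=
                  mul_le_mul (ht1 n) (hgx n j) (abs_nonneg _) (by norm_num)
              _ ≤ M i := by rw [one_mul]; exact hMmono hin
      _ = k * M i := by simp
  have hfz : ∀ z ∈ LL N r, ∀ i, |∑ l, (f i l : ℝ) * (z l : ℝ)| ≤ k ^ 2 * M i := by
    intro z hz i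
    obtain ⟨a, ha1, ha⟩ := hc z hz
    have h1 : ∀ l, (z l : ℝ) = ∑ n, a n * (x n l : ℝ) := by
      intro l
      have := congrFun ha l
      simpa [rv, Finset.sum_apply] using this
    have h2 : ∑ l, (f i l : ℝ) * (z l : ℝ) = ∑ n, a n * ∑ l, (f i l : ℝ) * (x n l : ℝ) := by
      simp only [h1, Finset.mul_sum]
      rw [Finset.sum_comm]
      apply Finset.sum_congr rfl; intro n _
      apply Finset.sum_congr rfl; intro l _
      ring
    rw [h2]
    refine (Finset.abs_sum_le_sum_abs _ _).trans ?_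
    calc ∑ n, |a n * ∑ l, (f i l : ℝ) * (x n l : ℝ)| ≤ ∑ _n : Fin k, (k * M i) := by
          apply Finset.sum_le_sum
          intro n _
          rw [abs_mul]
          calc |a n| * |∑ l, (f i l : ℝ) * (x n l : ℝ)| ≤ 1 * (k * M i) :=
                mul_le_mul (ha1 n) (hfx i n) (abs_nonneg _) (by norm_num)
            _ = _ := one_mul _
      _ = k ^ 2 * M i := by simp; ring
  -- the dual basis
  choose A hA using fun l : Fin k => hspan (Pi.single l 1)
  let L : Fin k → ℕ := fun i => ⌊(k : ℝ) ^ 2 * M i⌋₊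
  refine ⟨fun i l => A l i, L, ?_, ?_⟩
  · intro z hz
    refine ⟨fun i => ∑ l, f i l * z l, ?_, ?_⟩
    · intro i
      have h1 := hfz z hz i
      have h2 : ((|∑ l, f i l * z l| : ℤ) : ℝ) ≤ k ^ 2 * M i := by
        push_cast; exact h1
      have h3 : (0 : ℝ) ≤ k ^ 2 * M i := (abs_nonneg _).trans h1
      have h4 : |∑ l, f i l * z l| ≤ ((L i : ℕ) : ℤ) := by
        have h5 : (((|∑ l, f i l * z l|).toNat : ℕ) : ℝ) ≤ k ^ 2 * M i := by
          have h6 : (((|∑ l, f i l * z l|).toNat : ℕ) : ℝ) = ((|∑ l, f i l * z l| : ℤ) : ℝ) := by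
            have h7 : (((|∑ l, f i l * z l|).toNat : ℕ) : ℤ) = |∑ l, f i l * z l| :=
              Int.toNat_of_nonneg (abs_nonneg _)
            exact_mod_cast congrArg (Int.cast : ℤ → ℝ) h7
          rw [h6]; exact h2
        have h8 := Nat.le_floor h5
        have h9 : (((|∑ l, f i l * z l|).toNat : ℕ) : ℤ) = |∑ l, f i l * z l| :=
          Int.toNat_of_nonneg (abs_nonneg _)
        have h10 : (|∑ l, f i l * z l|).toNat ≤ L i := h8
        rw [← h9]
        exact_mod_cast h10
      exact h4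
    · funext l
      rw [Finset.sum_apply]
      have h1 : ∀ n, (Pi.single l 1 : Fin k → ℤ) n = ∑ i, A l i * f i n := by
        intro n
        have := congrFun (hA l) n
        simpa [Finset.sum_apply] using this
      calc z l = ∑ n, (Pi.single l 1 : Fin k → ℤ) n * z n := by
            rw [Finset.sum_eq_single l]
            · simp
            · intro n _ hn; rw [Pi.single_eq_of_ne hn, zero_mul]
            · intro h; exact absurd (Finset.mem_univ _) h
        _ = ∑ n, (∑ i, A l i * f i n) * z n := by simp only [h1]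
        _ = ∑ i, ((∑ n, f i n * z n) • (fun l => A l i : Fin k → ℤ)) l := by
            simp only [Finset.sum_mul, Pi.smul_apply, smul_eq_mul]
            rw [Finset.sum_comm]
            apply Finset.sum_congr rfl; intro i _
            apply Finset.sum_congr rfl; intro n _
            ring
  · have h1 : (∏ i, ((2 * L i + 1 : ℕ) : ℝ)) ≤ ∏ i, (3 * (k : ℝ) ^ 2 * M i) := by
      apply Finset.prod_le_prod
      · intro i _; positivity
      · intro i _
        have h2 : ((L i : ℕ) : ℝ) ≤ (k : ℝ) ^ 2 * M i :=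
          Nat.floor_le (mul_nonneg (by positivity) (by linarith [hM1 i]))
        have h3 : (1 : ℝ) ≤ (k : ℝ) ^ 2 * M i := by
          have h4 : (1 : ℝ) ≤ (k : ℝ) ^ 2 := one_le_pow₀ hk1
          nlinarith [hM1 i]
        push_cast
        linarith
    rw [Finset.prod_mul_distrib, Finset.prod_const, Finset.card_univ, Fintype.card_fin] at h1
    have h5 : ((∏ i, (2 * L i + 1) : ℕ) : ℝ) ≤ (((36 * k ^ 6) ^ k * (LL N r).ncard : ℕ) : ℝ) := by
      have h6 : (D : ℝ) ≤ (k : ℝ) ^ k * (LL N r).ncard := by exact_mod_cast hDle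
      calc ((∏ i, (2 * L i + 1) : ℕ) : ℝ) = ∏ i, ((2 * L i + 1 : ℕ) : ℝ) := by push_cast; rfl
        _ ≤ (3 * (k : ℝ) ^ 2) ^ k * ∏ i, M i := h1
        _ ≤ (3 * (k : ℝ) ^ 2) ^ k * ((12 * (k : ℝ) ^ 3) ^ k * ((k : ℝ) ^ k * (LL N r).ncard)) := by
            apply mul_le_mul_of_nonneg_left _ (by positivity)
            exact hprod.trans (mul_le_mul_of_nonneg_left h6 (by positivity))
        _ = _ := by
            push_cast
            rw [← mul_assoc, ← mul_assoc, ← mul_pow, ← mul_pow]
            congr 2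
            ring
    exact_mod_cast h5

/-- a subgroup of `ℤ^m` generated by finitely many elements is the image of some `ℤ^d`, and norms
pull back. -/
theorem sub_basis {m : ℕ} (N : Seminorm ℝ (Fin m → ℝ)) (S : Finset (Fin m → ℤ)) :
    ∃ (d : ℕ) (N' : Seminorm ℝ (Fin d → ℝ)) (φ : (Fin d → ℤ) →+ (Fin m → ℤ)),
      d ≤ m ∧ Function.Injective φ ∧
      (∀ c : Fin d → ℤ, N' (fun i => (c i : ℝ)) = N (fun i => (φ c i : ℝ))) ∧
      (∀ z ∈ S, ∃ c, φ c = z) ∧
      ∀ c, φ c ∈ AddSubgroup.closure (S : Set (Fin m → ℤ)) := by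
  classical
  set L : Submodule ℤ (Fin m → ℤ) := Submodule.span ℤ (S : Set (Fin m → ℤ)) with hL
  obtain ⟨d, b⟩ := Submodule.basisOfPid (Pi.basisFun ℤ (Fin m)) L
  have hd : d ≤ m := by
    have h1 : Module.finrank ℤ L = d := by
      rw [Module.finrank_eq_card_basis b, Fintype.card_fin]
    rw [← h1]
    have := Submodule.finrank_le L
    simpa using this
  let v : Fin d → (Fin m → ℤ) := fun i => (b i : Fin m → ℤ)
  have hvZ : LinearIndependent ℤ v := b.linearIndependent.map' L.subtype (Submodule.ker_subtype L)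
  let w : Fin d → (Fin m → ℝ) := fun i => (algebraMap ℤ ℝ) ∘ v i
  let Φ : (Fin d → ℝ) →ₗ[ℝ] (Fin m → ℝ) := Fintype.linearCombination ℝ w
  let φ : (Fin d → ℤ) →+ (Fin m → ℤ) := (Fintype.linearCombination ℤ v).toAddMonoidHom
  have hφ : ∀ c : Fin d → ℤ, φ c = ∑ i, c i • v i := fun c => rfl
  refine ⟨d, N.comp Φ, φ, hd, ?_, ?_, ?_, ?_⟩
  · intro c c' h
    exact hvZ.fintypeLinearCombination_injective h
  · intro c
    have h1 : Φ (fun i => (c i : ℝ)) = fun i => (φ c i : ℝ) := by
      funext k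
      rw [hφ]
      change (∑ i, (c i : ℝ) • w i) k = _
      rw [Finset.sum_apply, Finset.sum_apply]
      push_cast
      apply Finset.sum_congr rfl
      intro i _
      simp [w]
    change N (Φ _) = _
    rw [h1]
  · intro z hz
    have hzL : z ∈ L := Submodule.subset_span hz
    refine ⟨fun i => b.repr ⟨z, hzL⟩ i, ?_⟩
    rw [hφ]
    have h1 := b.sum_repr ⟨z, hzL⟩
    have h2 := congrArg L.subtype h1
    rw [map_sum] at h2
    simpa [v] using h2
  · intro c
    rw [hφ, ← Submodule.span_int_eq_addSubgroupClosure, Submodule.mem_toAddSubgroup]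
    exact Submodule.sum_mem _ fun i _ => Submodule.smul_mem _ _ (b i).2

/-- **Outer boxes**: the lattice points of a norm ball lie in a box of at most the same dimension
with at most `d^O(d)` times as many points. -/
theorem outer_box {m : ℕ} (N : Seminorm ℝ (Fin m → ℝ)) {r : ℝ} (hr : 0 ≤ r)
    (hfin : (LL N r).Finite) :
    ∃ (k : ℕ) (w : Fin k → (Fin m → ℤ)) (L : Fin k → ℕ), k ≤ m ∧
      (∀ z ∈ LL N r, ∃ a : Fin k → ℤ, (∀ i, |a i| ≤ L i) ∧ z = ∑ i, a i • w i) ∧
      ∏ i, (2 * L i + 1) ≤ (36 * k ^ 6) ^ k * (LL N r).ncard := by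
  classical
  obtain ⟨d, N', φ, hd, hinj, hN', hsurj, hcl⟩ := sub_basis N hfin.toFinset
  have hmem : ∀ c, c ∈ LL N' r ↔ φ c ∈ LL N r := by
    intro c
    show N' _ ≤ r ↔ N _ ≤ r
    rw [hN']
  have himg : φ '' LL N' r = LL N r := by
    ext z
    constructor
    · rintro ⟨c, hc, rfl⟩
      exact (hmem c).1 hc
    · intro hz
      obtain ⟨c, rfl⟩ := hsurj z (by simpa using hz)
      exact ⟨c, (hmem c).2 hz, rfl⟩
  have hfin' : (LL N' r).Finite := by
    apply Set.Finite.of_finite_image (f := φ) _ hinj.injOn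
    rw [himg]; exact hfin
  have hcard : (LL N' r).ncard = (LL N r).ncard := by
    rw [← himg, Set.ncard_image_of_injective _ hinj]
  -- generation
  have hgen : ∀ c : Fin d → ℤ, c ∈ AddSubgroup.closure (LL N' r) := by
    intro c
    have h1 := hcl c
    have h2 : (hfin.toFinset : Set (Fin m → ℤ)) = φ '' LL N' r := by
      rw [himg, Set.Finite.coe_toFinset]
    rw [h2, ← AddMonoidHom.map_closure] at h1
    obtain ⟨c', hc', he⟩ := h1
    rw [← hinj he]
    exact hc'
  obtain ⟨k, x, hli, hx, hc⟩ := Dim_family N' hfin'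
  have hspan : Submodule.span ℝ (Set.range fun i => rv (x i)) = ⊤ := by
    have h1 : ∀ c ∈ AddSubgroup.closure (LL N' r),
        rv c ∈ Submodule.span ℝ (Set.range fun i => rv (x i)) := by
      intro c hcc
      refine AddSubgroup.closure_induction
        (p := fun c _ => rv c ∈ Submodule.span ℝ (Set.range fun i => rv (x i))) ?_ ?_ ?_ ?_ hcc
      · intro z hz
        obtain ⟨a, -, ha⟩ := hc z hz
        have h2 : rv z = ∑ i, a i • rv (x i) := ha
        rw [h2]
        exact Submodule.sum_mem _ fun i _ =>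
          Submodule.smul_mem _ _ (Submodule.subset_span ⟨i, rfl⟩)
      · have : rv (0 : Fin d → ℤ) = 0 := by funext i; simp [rv]
        rw [this]; exact Submodule.zero_mem _
      · intro a b _ _ ha hb
        rw [rv_add]; exact Submodule.add_mem _ ha hb
      · intro a _ ha
        have : rv (-a) = -rv a := by funext i; simp [rv]
        rw [this]; exact Submodule.neg_mem _ ha
    rw [eq_top_iff]
    intro y _
    have h2 : y = ∑ i, y i • rv (Pi.single i 1 : Fin d → ℤ) := by
      funext j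
      rw [Finset.sum_apply, Finset.sum_eq_single j]
      · simp [rv]
      · intro i _ hij
        simp only [rv, Pi.smul_apply, smul_eq_mul]
        rw [Pi.single_eq_of_ne hij.symm]
        simp
      · intro h; exact absurd (Finset.mem_univ _) h
    rw [h2]
    exact Submodule.sum_mem _ fun i _ => Submodule.smul_mem _ _ (h1 _ (hgen _))
  have hkd : k = d := by
    let b : Module.Basis (Fin k) ℝ (Fin d → ℝ) := Module.Basis.mk hli (le_of_eq hspan.symm)
    have h1 := Module.finrank_eq_card_basis b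
    rw [Module.finrank_fin_fun, Fintype.card_fin] at h1
    exact h1.symm
  subst hkd
  obtain ⟨w, L, hw, hL⟩ := box_full N' hr hfin' x hx hli hc
  refine ⟨k, fun i => φ (w i), L, hd, ?_, ?_⟩
  · intro z hz
    obtain ⟨c, rfl⟩ := hsurj z (by simpa using hz)
    obtain ⟨a, ha, he⟩ := hw c ((hmem c).2 hz)
    refine ⟨a, ha, ?_⟩
    conv_lhs => rw [he]
    rw [map_sum]
    apply Finset.sum_congr rfl
    intro i _
    rw [map_zsmul]
  · rw [← hcard]; exact hL

end W860.OB
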