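import Pool.Agent.W860.OB.Tri
import Pool.Agent.H112R2.John
set_option autoImplicit false

/-! Two pigeonhole arguments: lattice points in the Auerbach parallelepiped and in the dual ball. -/

namespace W860.OB

open Finset H112

/-- index of the span of `k` independent vectors of `ℤ^k` -/
theorem card_quot {k : ℕ} (y : Fin k → (Fin k → ℤ)) (hy : LinearIndependent ℤ y) :
    Nat.card ((Fin k → ℤ) ⧸ Submodule.span ℤ (Set.range y)) = (Matrix.of y).det.natAbs := by
  classical
  have h := Submodule.natAbs_det_basis_change (Pi.basisFun ℤ (Fin k))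
    (Submodule.span ℤ (Set.range y)) (Module.Basis.span hy)
  rw [← h]
  congr 1
  have h1 : ((↑) ∘ (Module.Basis.span hy) : Fin k → (Fin k → ℤ)) = y := by
    funext i
    simp [Module.Basis.span_apply]
  rw [h1, Module.Basis.det_apply, ← Matrix.det_transpose]
  congr 1

/-- points of the fundamental parallelepiped -/
theorem pig_a {k : ℕ} (N : Seminorm ℝ (Fin k → ℝ)) {r : ℝ} (hr : 0 ≤ r)
    (hfin : (LL N r).Finite) (x : Fin k → (Fin k → ℤ)) (hx : ∀ i, x i ∈ LL N r)
    (hli : LinearIndependent ℝ (fun i => rv (x i)))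
    (hfq : Finite ((Fin k → ℤ) ⧸ Submodule.span ℤ (Set.range x))) :
    Nat.card ((Fin k → ℤ) ⧸ Submodule.span ℤ (Set.range x)) ≤ k ^ k * (LL N r).ncard := by
  classical
  let b : Module.Basis (Fin k) ℝ (Fin k → ℝ) :=
    basisOfLinearIndependentOfCardEqFinrank' (fun i => rv (x i)) hli (by simp)
  have hb : ∀ i, b i = rv (x i) := by
    intro i; simp [b]
  let co : (Fin k → ℤ) → Fin k → ℝ := fun z j => b.repr (rv z) j
  have co_sub : ∀ z y j, co (z - y) j = co z j - co y j := by
    intro z y j; simp [co, rv_sub]
  have co_sum : ∀ (c : Fin k → ℤ) j, co (∑ i, c i • x i) j = (c j : ℝ) := by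
    intro c j
    simp only [co]
    rw [rv_sum, map_sum, Finsupp.finsetSum_apply, Finset.sum_eq_single j]
    · rw [rv_zsmul, map_smul, Finsupp.smul_apply, smul_eq_mul, ← hb, Module.Basis.repr_self,
        Finsupp.single_eq_same, mul_one]
    · intro i _ hi
      rw [rv_zsmul, map_smul, Finsupp.smul_apply, smul_eq_mul, ← hb, Module.Basis.repr_self,
        Finsupp.single_eq_of_ne hi.symm, mul_zero]
    · intro h; exact absurd (Finset.mem_univ _) h
  have co_rep : ∀ z, rv z = ∑ j, co z j • rv (x j) := by
    intro z
    have := b.sum_repr (rv z)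
    simp only [hb] at this
    exact this.symm
  have : Fintype ((Fin k → ℤ) ⧸ Submodule.span ℤ (Set.range x)) := Fintype.ofFinite _
  -- representatives
  have hrep : ∀ q : (Fin k → ℤ) ⧸ Submodule.span ℤ (Set.range x), ∃ z : Fin k → ℤ,
      Submodule.Quotient.mk z = q ∧ ∀ j, 0 ≤ co z j ∧ co z j < 1 := by
    intro q
    obtain ⟨w, rfl⟩ := Submodule.Quotient.mk_surjective _ q
    refine ⟨w - ∑ i, ⌊co w i⌋ • x i, ?_, ?_⟩
    · rw [Submodule.Quotient.eq]
      have : w - ∑ i, ⌊co w i⌋ • x i - w = -∑ i, ⌊co w i⌋ • x i := by abel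
      rw [this]
      apply Submodule.neg_mem
      exact Submodule.sum_mem _ fun i _ =>
        Submodule.smul_mem _ _ (Submodule.subset_span ⟨i, rfl⟩)
    · intro j
      rw [co_sub, co_sum]
      constructor
      · have := Int.floor_le (co w j); linarith
      · have := Int.lt_floor_add_one (co w j); linarith
  choose z hz hz01 using hrep
  let cell : ((Fin k → ℤ) ⧸ Submodule.span ℤ (Set.range x)) → (Fin k → ℕ) :=
    fun q j => ⌊(k : ℝ) * co (z q) j⌋₊
  let T : Finset (Fin k → ℕ) := Fintype.piFinset fun _ => Finset.range k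
  have hT : T.card = k ^ k := by
    simp [T, Fintype.card_piFinset]
  have hmaps : ∀ q ∈ (Finset.univ : Finset ((Fin k → ℤ) ⧸ Submodule.span ℤ (Set.range x))),
      cell q ∈ T := by
    intro q _
    simp only [T, Fintype.mem_piFinset, Finset.mem_range, cell]
    intro j
    have hk : (0 : ℝ) < k := by exact_mod_cast j.pos
    rw [Nat.floor_lt (mul_nonneg hk.le (hz01 q j).1)]
    have := (hz01 q j).2
    nlinarith
  have hfib : ∀ t ∈ T, ((Finset.univ : Finset ((Fin k → ℤ) ⧸
      Submodule.span ℤ (Set.range x))).filter fun q => cell q = t).card ≤ (LL N r).ncard := by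
    intro t _
    rcases ((Finset.univ : Finset ((Fin k → ℤ) ⧸
      Submodule.span ℤ (Set.range x))).filter fun q => cell q = t).eq_empty_or_nonempty with
      h | ⟨q0, hq0⟩
    · rw [h]; simp
    · rw [Set.ncard_eq_toFinset_card _ hfin]
      rw [Finset.mem_filter] at hq0
      apply Finset.card_le_card_of_injOn (fun q => z q - z q0)
      · intro q hq
        simp only [Finset.coe_filter, Finset.mem_univ, true_and, Set.mem_ofPred_eq] at hq
        simp only [Set.Finite.coe_toFinset]
        show N (rv (z q - z q0)) ≤ r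
        rw [co_rep]
        refine (Dim_sum_le N _ _).trans ?_
        have hterm : ∀ j : Fin k, N (co (z q - z q0) j • rv (x j)) ≤ 1 / k * r := by
          intro j
          rw [map_smul_eq_mul]
          have hk : (0 : ℝ) < k := by exact_mod_cast j.pos
          have h1 : ⌊(k : ℝ) * co (z q) j⌋₊ = ⌊(k : ℝ) * co (z q0) j⌋₊ := by
            have e1 := congrFun (hq.trans hq0.2.symm) j
            exact e1
          have h2 := Nat.floor_le (mul_nonneg hk.le (hz01 q j).1)
          have h3 := Nat.floor_le (mul_nonneg hk.le (hz01 q0 j).1)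
          have h4 := Nat.lt_floor_add_one ((k : ℝ) * co (z q) j)
          have h5 := Nat.lt_floor_add_one ((k : ℝ) * co (z q0) j)
          rw [h1] at h2 h4
          have h6 : ‖co (z q - z q0) j‖ ≤ 1 / k := by
            rw [Real.norm_eq_abs, co_sub, le_div_iff₀ hk]
            have e2 : |co (z q) j - co (z q0) j| * k = |k * co (z q) j - k * co (z q0) j| := by
              rw [← mul_sub, abs_mul, abs_of_pos hk, mul_comm]
            rw [e2, abs_le]
            constructor <;> linarith
          exact mul_le_mul h6 (hx j) (apply_nonneg N _) (by positivity)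
        calc ∑ j, N (co (z q - z q0) j • rv (x j)) ≤ ∑ _j : Fin k, 1 / (k : ℝ) * r :=
              Finset.sum_le_sum fun j _ => hterm j
          _ = (k : ℝ) * (1 / k * r) := by simp
          _ ≤ r := by
            rcases Nat.eq_zero_or_pos k with hk | hk
            · subst hk; simpa using hr
            · have : (k : ℝ) ≠ 0 := by exact_mod_cast hk.ne'
              rw [← mul_assoc, mul_one_div_cancel this, one_mul]
      · intro q _ q' _ h
        have h1 : z q = z q' := sub_left_injective h
        rw [← hz q, ← hz q', h1]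
  have h := Finset.card_le_mul_card_image_of_maps_to hmaps _ hfib
  rw [hT, Finset.card_univ] at h
  rw [Nat.card_eq_fintype_card, mul_comm]
  exact h

/-- points of the dual ball -/
theorem pig_b {k : ℕ} (y : Fin k → (Fin k → ℤ)) (F : Set (Fin k → ℤ)) (hF : F.Finite) (R : ℕ)
    (hfq : Finite ((Fin k → ℤ) ⧸ Submodule.span ℤ (Set.range y)))
    (hFm : ∀ g : Fin k → ℤ, (∀ i, |(∑ l, g l • y l) i| ≤ R) → g ∈ F) :
    R ^ k ≤ F.ncard * Nat.card ((Fin k → ℤ) ⧸ Submodule.span ℤ (Set.range y)) := by
  classical
  have : Fintype ((Fin k → ℤ) ⧸ Submodule.span ℤ (Set.range y)) := Fintype.ofFinite _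
  let Z : Finset (Fin k → ℤ) := Fintype.piFinset fun _ => Finset.Ico (0 : ℤ) R
  have hZ : Z.card = R ^ k := by
    simp [Z, Fintype.card_piFinset]
  let q : (Fin k → ℤ) → ((Fin k → ℤ) ⧸ Submodule.span ℤ (Set.range y)) :=
    fun z => Submodule.Quotient.mk z
  have hfib : ∀ t ∈ (Finset.univ : Finset ((Fin k → ℤ) ⧸ Submodule.span ℤ (Set.range y))),
      (Z.filter fun z => q z = t).card ≤ F.ncard := by
    intro t _
    rcases (Z.filter fun z => q z = t).eq_empty_or_nonempty with h | ⟨z0, hz0⟩
    · rw [h]; simp
    · rw [Set.ncard_eq_toFinset_card _ hF]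
      rw [Finset.mem_filter] at hz0
      have hch : ∀ z : Fin k → ℤ, ∃ g : Fin k → ℤ, q z = t → ∑ l, g l • y l = z - z0 := by
        intro z
        by_cases hzt : q z = t
        · have h1 : z - z0 ∈ Submodule.span ℤ (Set.range y) := by
            rw [← Submodule.Quotient.eq]
            exact hzt.trans hz0.2.symm
          rw [Submodule.mem_span_range_iff_exists_fun] at h1
          obtain ⟨g, hg⟩ := h1
          exact ⟨g, fun _ => hg⟩
        · exact ⟨0, fun h => absurd h hzt⟩
      choose g hg using hch
      apply Finset.card_le_card_of_injOn g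
      · intro z hz
        simp only [Finset.coe_filter, Set.mem_ofPred_eq] at hz
        simp only [Set.Finite.coe_toFinset]
        apply hFm
        intro i
        rw [hg z hz.2]
        have h1 := Fintype.mem_piFinset.1 hz.1 i
        have h2 := Fintype.mem_piFinset.1 hz0.1 i
        rw [Finset.mem_Ico] at h1 h2
        rw [Pi.sub_apply, abs_le]
        omega
      · intro z hz z' hz' h
        simp only [Finset.coe_filter, Set.mem_ofPred_eq] at hz hz'
        have h1 := hg z hz.2
        have h2 := hg z' hz'.2
        rw [h, h2] at h1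
        exact (sub_left_injective h1).symm
  have h := Finset.card_le_mul_card_image_of_maps_to (f := q) (s := Z)
    (t := Finset.univ) (fun z _ => Finset.mem_univ _) _ hfib
  rw [hZ, Finset.card_univ] at h
  rw [Nat.card_eq_fintype_card]
  exact h

end W860.OB
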