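import Mathlib
set_option autoImplicit false

/-! A basis of `ℤ^k` whose vectors are small combinations of given independent vectors. -/

namespace W860.OB

open Finset

/-- an integer vector as a real vector -/
def rv {k : ℕ} (x : Fin k → ℤ) : Fin k → ℝ := fun i => (x i : ℝ)

theorem rv_add {k : ℕ} (x y : Fin k → ℤ) : rv (x + y) = rv x + rv y := by
  funext i; simp [rv]

theorem rv_sub {k : ℕ} (x y : Fin k → ℤ) : rv (x - y) = rv x - rv y := by
  funext i; simp [rv]

theorem rv_zsmul {k : ℕ} (a : ℤ) (x : Fin k → ℤ) : rv (a • x) = (a : ℝ) • rv x := by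
  funext i; simp [rv]

theorem rv_sum {k : ℕ} {ι : Type*} (s : Finset ι) (x : ι → (Fin k → ℤ)) :
    rv (∑ i ∈ s, x i) = ∑ i ∈ s, rv (x i) := by
  funext i; simp [rv, Finset.sum_apply]

theorem rv_inj {k : ℕ} : Function.Injective (rv : (Fin k → ℤ) → (Fin k → ℝ)) := by
  intro x y h
  funext i
  have := congrFun h i
  simpa [rv] using this

theorem tri_basis {k : ℕ} (g : Fin k → (Fin k → ℤ))
    (hg : LinearIndependent ℝ (fun i => rv (g i))) :
    ∃ f : Fin k → (Fin k → ℤ), (∀ x : Fin k → ℤ, ∃ a : Fin k → ℤ, x = ∑ i, a i • f i) ∧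
      ∀ i, ∃ t : Fin k → ℝ, (∀ l, |t l| ≤ 1) ∧ (∀ l, i < l → t l = 0) ∧
        rv (f i) = ∑ j, t j • rv (g j) := by
  classical
  let b : Module.Basis (Fin k) ℝ (Fin k → ℝ) :=
    basisOfLinearIndependentOfCardEqFinrank' (fun i => rv (g i)) hg (by simp)
  have hb : ∀ i, b i = rv (g i) := by
    intro i; simp [b]
  let co : (Fin k → ℤ) → Fin k → ℝ := fun x j => b.repr (rv x) j
  have co_sub : ∀ x y j, co (x - y) j = co x j - co y j := by
    intro x y j; simp [co, rv_sub]
  have co_zsmul : ∀ (a : ℤ) x j, co (a • x) j = a * co x j := by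
    intro a x j
    simp only [co]
    rw [rv_zsmul, map_smul, Finsupp.smul_apply, smul_eq_mul]
  have co_sum : ∀ (s : Finset (Fin k)) (c : Fin k → ℤ) (z : Fin k → (Fin k → ℤ)) j,
      co (∑ i ∈ s, c i • z i) j = ∑ i ∈ s, (c i : ℝ) * co (z i) j := by
    intro s c z j
    simp only [co]
    rw [rv_sum, map_sum, Finsupp.finsetSum_apply]
    apply Finset.sum_congr rfl
    intro i _
    rw [rv_zsmul, map_smul, Finsupp.smul_apply, smul_eq_mul]
  have co_g : ∀ i j, co (g i) j = if i = j then 1 else 0 := by
    intro i j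
    simp only [co]
    rw [← hb, Module.Basis.repr_self, Finsupp.single_apply]
  have co_rep : ∀ x, rv x = ∑ j, co x j • rv (g j) := by
    intro x
    have := b.sum_repr (rv x)
    simp only [hb] at this
    exact this.symm
  -- finiteness of bounded sets
  have hbdd : ∀ S : Set (Fin k → ℤ), (∀ x ∈ S, ∀ l, |co x l| ≤ 1) → S.Finite := by
    intro S hS
    let C : Fin k → ℤ := fun i => ∑ l, |g l i|
    apply (Set.finite_Icc (-C) C).subset
    intro x hx
    have h1 : ∀ i, |(x i : ℝ)| ≤ C i := by
      intro i
      have h2 := congrFun (co_rep x) i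
      have h3 : (x i : ℝ) = ∑ j, co x j * (g j i : ℝ) := by
        simpa [rv, Finset.sum_apply] using h2
      rw [h3]
      refine (Finset.abs_sum_le_sum_abs _ _).trans ?_
      simp only [C]
      push_cast
      apply Finset.sum_le_sum
      intro j _
      rw [abs_mul]
      calc |co x j| * |(g j i : ℝ)| ≤ 1 * |(g j i : ℝ)| :=
            mul_le_mul_of_nonneg_right (hS x hx j) (abs_nonneg _)
        _ = _ := one_mul _
    rw [Set.mem_Icc]
    constructor
    · intro i
      have := (abs_le.1 (h1 i)).1
      have h4 : ((-C i : ℤ) : ℝ) ≤ (x i : ℝ) := by push_cast; exact this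
      exact_mod_cast h4
    · intro i
      have := (abs_le.1 (h1 i)).2
      exact_mod_cast this
  -- the choice of `f`
  let P : Fin k → Set (Fin k → ℤ) := fun j =>
    {x | (∀ l, |co x l| ≤ 1) ∧ (∀ l, j < l → co x l = 0) ∧ 0 < co x j}
  have hPne : ∀ j, (P j).Nonempty := by
    intro j
    refine ⟨g j, ?_, ?_, ?_⟩
    · intro l; rw [co_g]; split_ifs <;> simp
    · intro l hl; rw [co_g, if_neg hl.ne]
    · rw [co_g, if_pos rfl]; exact one_pos
  have hPfin : ∀ j, (P j).Finite := fun j => hbdd _ fun x hx => hx.1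
  have hch : ∀ j, ∃ f ∈ P j, ∀ x ∈ P j, co f j ≤ co x j := by
    intro j
    exact Set.exists_min_image (P j) (fun x => co x j) (hPfin j) (hPne j)
  choose f hfP hfmin using hch
  have hdiv : ∀ j, ∀ x : Fin k → ℤ, (∀ l, j < l → co x l = 0) →
      ∃ n : ℤ, co x j = n * co (f j) j := by
    intro j x hx
    have hpos : 0 < co (f j) j := (hfP j).2.2
    have hle1 : co (f j) j ≤ 1 := (le_abs_self _).trans ((hfP j).1 j)
    let n : ℤ := ⌊co x j / co (f j) j⌋
    refine ⟨n, ?_⟩
    let y : Fin k → ℤ := x - n • f j
    have hy : co y j = co x j - n * co (f j) j := by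
      simp only [y]; rw [co_sub, co_zsmul]
    have h1 : (n : ℝ) ≤ co x j / co (f j) j := Int.floor_le _
    have h2 : co x j / co (f j) j < n + 1 := Int.lt_floor_add_one _
    rw [le_div_iff₀ hpos] at h1
    rw [div_lt_iff₀ hpos] at h2
    have hy0 : 0 ≤ co y j := by rw [hy]; linarith
    have hy1 : co y j < co (f j) j := by rw [hy]; linarith
    by_contra hne
    have hy0' : 0 < co y j := lt_of_le_of_ne hy0 fun h => hne (by linarith)
    let z : Fin k → ℤ := y - ∑ l ∈ Finset.univ.filter (fun l => l < j), round (co y l) • g l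
    have hz : ∀ i, co z i = if i < j then co y i - round (co y i) else co y i := by
      intro i
      simp only [z]
      rw [co_sub, co_sum]
      simp only [co_g, mul_ite, mul_one, mul_zero]
      rw [Finset.sum_ite_eq' (Finset.univ.filter (fun l => l < j)) i
        (fun l => ((round (co y l) : ℤ) : ℝ))]
      by_cases hij : i < j
      · simp [hij]
      · simp [hij]
    have hylt : ∀ l, j < l → co y l = 0 := by
      intro l hl
      simp only [y]
      rw [co_sub, co_zsmul, hx l hl, (hfP j).2.1 l hl]
      simp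
    have hzP : z ∈ P j := by
      refine ⟨?_, ?_, ?_⟩
      · intro l
        rw [hz]
        split_ifs with h
        · have := abs_sub_round (co y l)
          linarith
        · rcases eq_or_lt_of_le (not_lt.1 h) with h' | h'
          · rw [← h', abs_of_pos hy0']
            linarith
          · rw [hylt l h']; simp
      · intro l hl
        rw [hz, if_neg (not_lt.2 hl.le), hylt l hl]
      · rw [hz, if_neg (lt_irrefl _)]; exact hy0'
    have := hfmin j z hzP
    rw [hz, if_neg (lt_irrefl _)] at this
    linarith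
  refine ⟨f, ?_, ?_⟩
  · -- spanning
    have key : ∀ n : ℕ, n ≤ k → ∀ x : Fin k → ℤ, (∀ l : Fin k, n ≤ l.val → co x l = 0) →
        ∃ a : Fin k → ℤ, x = ∑ i, a i • f i := by
      intro n
      induction n with
      | zero =>
        intro _ x hx
        refine ⟨0, ?_⟩
        apply rv_inj
        rw [co_rep x]
        simp only [Pi.zero_apply, zero_smul, Finset.sum_const_zero]
        rw [Finset.sum_eq_zero]
        · funext i; simp [rv]
        · intro j _
          rw [hx j (Nat.zero_le _), zero_smul]
      | succ n ih =>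
        intro hn x hx
        obtain ⟨m, hm⟩ := hdiv ⟨n, hn⟩ x (fun l hl => hx l (by
          have : n < l.val := hl
          omega))
        obtain ⟨a, ha⟩ := ih (by omega) (x - m • f ⟨n, hn⟩) (by
          intro l hl
          rw [co_sub, co_zsmul]
          rcases eq_or_lt_of_le hl with h | h
          · have : l = ⟨n, hn⟩ := Fin.ext h.symm
            rw [this, hm, sub_self]
          · rw [hx l h, (hfP ⟨n, hn⟩).2.1 l h]
            simp)
        refine ⟨a + Pi.single ⟨n, hn⟩ m, ?_⟩
        have h1 : x = (x - m • f ⟨n, hn⟩) + m • f ⟨n, hn⟩ := by abel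
        rw [h1, ha]
        simp only [Pi.add_apply, add_smul, Finset.sum_add_distrib]
        congr 1
        rw [Finset.sum_eq_single ⟨n, hn⟩]
        · simp
        · intro i _ hi
          rw [Pi.single_eq_of_ne hi, zero_smul]
        · intro h; exact absurd (Finset.mem_univ _) h
    intro x
    exact key k le_rfl x (fun l hl => absurd l.isLt (not_lt.2 hl))
  · intro i
    exact ⟨co (f i), (hfP i).1, (hfP i).2.1, co_rep _⟩

end W860.OB
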